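import Pool.Agent.helper36.YB.Spec

set_option autoImplicit false

open Finset
open Pool.Agent.FI Pool.Agent.HK Pool.Agent.BP
open Pool.Agent.CH (nit rgh ll2)
open Pool.Agent.SK (tr0 Th)

noncomputable section

namespace Pool.Agent.YB

private def SGN_x4 (n : ℕ) : ℂ := if n % 4 = 1 then 1 else if n % 4 = 3 then -1 else 0

private theorem SGN_x4_mul (a b : ℕ) : SGN_x4 (a * b) = SGN_x4 a * SGN_x4 b := by
  unfold SGN_x4
  have h1 : a * b % 4 = (a % 4) * (b % 4) % 4 := Nat.mul_mod a b 4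
  rw [h1]
  have ha : a % 4 < 4 := Nat.mod_lt _ (by norm_num)
  have hb : b % 4 < 4 := Nat.mod_lt _ (by norm_num)
  interval_cases (a % 4) <;> interval_cases (b % 4) <;> norm_num

private theorem SGN_x4_norm (n : ℕ) : ‖SGN_x4 n‖ ≤ 1 := by
  unfold SGN_x4
  split_ifs <;> norm_num

private theorem SGN_cop {m n q : ℕ} (h : m + n = 8 * q) (hc : Nat.Coprime n q) : Nat.Coprime m q := by
  have h1 : Nat.gcd m q ∣ n := (Nat.dvd_add_right (Nat.gcd_dvd_left m q)).mp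
    (by rw [h]; exact Dvd.dvd.mul_left (Nat.gcd_dvd_right m q) 8)
  exact Nat.dvd_one.mp (hc ▸ Nat.dvd_gcd h1 (Nat.gcd_dvd_right m q))

private theorem SGN_cop_iff {m n q : ℕ} (h : m + n = 8 * q) : Nat.Coprime m q ↔ Nat.Coprime n q :=
  ⟨fun hc => SGN_cop (by omega) hc, fun hc => SGN_cop h hc⟩

private theorem SGN_per (M : ℕ) (hMp : 0 < M) (f : ℕ → ℂ) (hper : ∀ n, f (n + M) = f n)
    (hodd : ∀ n ≤ M, f (M - n) = - f n) (hb : ∀ n, ‖f n‖ ≤ 1) (y : ℕ) :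
    ‖∑ n ∈ Ioc 0 y, f n‖ ≤ M := by
  have hI : ∀ y : ℕ, ∑ n ∈ Ioc 0 y, f n = ∑ n ∈ range y, f (n + 1) := by
    intro y
    induction y with
    | zero => simp
    | succ y ih => rw [sum_Ioc_succ_top (Nat.zero_le y), ih, sum_range_succ]
  have h0 : f 0 = 0 := by
    have h1 := hodd 0 (Nat.zero_le M)
    have h2 := hper 0
    rw [Nat.sub_zero] at h1
    rw [zero_add] at h2
    rw [h2] at h1
    exact self_eq_neg.mp h1
  have hs : ∑ n ∈ range (M + 1), f n = 0 := by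
    have h1 := sum_range_reflect f (M + 1)
    have h2 : ∑ j ∈ range (M + 1), f (M + 1 - 1 - j) = -∑ j ∈ range (M + 1), f j := by
      rw [← sum_neg_distrib]
      refine sum_congr rfl fun j hj => ?_
      rw [Nat.add_sub_cancel]
      exact hodd j (Nat.lt_succ_iff.mp (mem_range.mp hj))
    rw [h2] at h1
    exact neg_eq_self.mp h1
  have hM0 : ∑ n ∈ range M, f (n + 1) = 0 := by
    have h1 := sum_range_succ' f M
    rw [hs, h0, add_zero] at h1
    exact h1.symm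
  rw [hI]
  induction y using Nat.strong_induction_on with
  | _ y ih =>
    rcases Nat.lt_or_ge M y with hlt | hge
    · obtain ⟨y', rfl⟩ : ∃ y', y = M + y' := ⟨y - M, by omega⟩
      rw [sum_range_add, hM0, zero_add]
      have h1 : ∀ n, f (M + n + 1) = f (n + 1) := by
        intro n
        have := hper (n + 1)
        rw [← this]
        congr 1
        ring
      rw [sum_congr rfl fun n _ => h1 n]
      exact ih y' (by omega)
    · calc ‖∑ n ∈ range y, f (n + 1)‖ ≤ ∑ n ∈ range y, ‖f (n + 1)‖ := norm_sum_le _ _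
        _ ≤ ∑ n ∈ range y, (1 : ℝ) := sum_le_sum fun n _ => hb _
        _ = y := by rw [sum_const, card_range, nsmul_eq_mul, mul_one]
        _ ≤ M := by exact_mod_cast hge

private theorem SGN_hyp (M : ℝ) (hM : 0 ≤ M) (f g : ℕ → ℂ) (hf : ∀ n, ‖f n‖ ≤ 1) (hg : ∀ n, ‖g n‖ ≤ 1)
    (hF : ∀ y : ℕ, ‖∑ n ∈ Ioc 0 y, f n‖ ≤ M) (hG : ∀ y : ℕ, ‖∑ n ∈ Ioc 0 y, g n‖ ≤ M) (v : ℕ) :
    ‖∑ n ∈ Ioc 0 v, ∑ p ∈ n.divisorsAntidiagonal, f p.1 * g p.2‖ ≤ 2 * M * √(v : ℝ) + M ^ 2 := by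
  set u := Nat.sqrt v with hu
  have huv : u ≤ v := Nat.sqrt_le_self v
  have huu : u * u ≤ v := Nat.sqrt_le v
  have hur : (u : ℝ) ≤ √(v : ℝ) := by
    rw [hu]
    exact Real.nat_sqrt_le_real_sqrt
  set T : Finset (ℕ × ℕ) := (Ioc 0 v ×ˢ Ioc 0 v).filter fun p => p.1 * p.2 ≤ v with hT
  have e1 : ∑ n ∈ Ioc 0 v, ∑ p ∈ n.divisorsAntidiagonal, f p.1 * g p.2 = ∑ p ∈ T, f p.1 * g p.2 := by
    rw [← sum_fiberwise_of_maps_to (s := T) (t := Ioc 0 v) (g := fun p => p.1 * p.2)]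
    · refine sum_congr rfl fun n hn => sum_congr ?_ fun _ _ => rfl
      obtain ⟨hn1, hn2⟩ := mem_Ioc.mp hn
      ext p
      rw [Nat.mem_divisorsAntidiagonal, mem_filter, hT, mem_filter, mem_product, mem_Ioc, mem_Ioc]
      constructor
      · rintro ⟨h1, h2⟩
        have h3 : p.1 ≠ 0 := by
          intro h
          rw [h, zero_mul] at h1
          exact h2 h1.symm
        have h4 : p.2 ≠ 0 := by
          intro h
          rw [h, mul_zero] at h1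
          exact h2 h1.symm
        have h5 : p.1 ≤ n := Nat.le_of_dvd hn1 ⟨p.2, h1.symm⟩
        have h6 : p.2 ≤ n := Nat.le_of_dvd hn1 ⟨p.1, by rw [mul_comm]; exact h1.symm⟩
        exact ⟨⟨⟨⟨by omega, by omega⟩, ⟨by omega, by omega⟩⟩, by omega⟩, h1⟩
      · rintro ⟨-, h⟩
        exact ⟨h, by omega⟩
    · intro p hp
      rw [hT, mem_filter, mem_product, mem_Ioc, mem_Ioc] at hp
      rw [mem_Ioc]
      exact ⟨Nat.mul_pos hp.1.1.1 hp.1.2.1, hp.2⟩
  have hA : ∑ p ∈ T.filter (fun p => p.1 ≤ u), f p.1 * g p.2 =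
      ∑ a ∈ Ioc 0 u, ∑ b ∈ Ioc 0 (v / a), f a * g b := by
    refine sum_finset_product _ _ _ fun p => ?_
    rw [mem_filter, hT, mem_filter, mem_product, mem_Ioc, mem_Ioc, mem_Ioc, mem_Ioc]
    constructor
    · rintro ⟨⟨⟨⟨h1, h2⟩, ⟨h3, h4⟩⟩, h5⟩, h6⟩
      exact ⟨⟨h1, h6⟩, h3, (Nat.le_div_iff_mul_le h1).mpr (by rw [mul_comm]; exact h5)⟩
    · rintro ⟨⟨h1, h6⟩, h3, h4⟩
      have h5 := (Nat.le_div_iff_mul_le h1).mp h4
      rw [mul_comm] at h5
      exact ⟨⟨⟨⟨h1, h6.trans huv⟩, ⟨h3, (Nat.le_mul_of_pos_left _ h1).trans h5⟩⟩, h5⟩, h6⟩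
  have hB : ∑ p ∈ T.filter (fun p => p.2 ≤ u), f p.1 * g p.2 =
      ∑ b ∈ Ioc 0 u, ∑ a ∈ Ioc 0 (v / b), f a * g b := by
    refine sum_finset_product_right _ _ _ fun p => ?_
    rw [mem_filter, hT, mem_filter, mem_product, mem_Ioc, mem_Ioc, mem_Ioc, mem_Ioc]
    constructor
    · rintro ⟨⟨⟨⟨h1, h2⟩, ⟨h3, h4⟩⟩, h5⟩, h6⟩
      exact ⟨⟨h3, h6⟩, h1, (Nat.le_div_iff_mul_le h3).mpr h5⟩
    · rintro ⟨⟨h1, h6⟩, h3, h4⟩
      have h5 := (Nat.le_div_iff_mul_le h1).mp h4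
      exact ⟨⟨⟨⟨h3, (Nat.le_mul_of_pos_right _ h1).trans h5⟩, ⟨h1, h6.trans huv⟩⟩, h5⟩, h6⟩
  have hC : ∑ p ∈ (T.filter (fun p => p.1 ≤ u)).filter (fun p => p.2 ≤ u), f p.1 * g p.2 =
      (∑ a ∈ Ioc 0 u, f a) * ∑ b ∈ Ioc 0 u, g b := by
    rw [sum_mul_sum, ← sum_product']
    refine sum_congr ?_ fun _ _ => rfl
    ext p
    rw [mem_filter, mem_filter, hT, mem_filter, mem_product, mem_product, mem_Ioc, mem_Ioc, mem_Ioc, mem_Ioc]
    constructor
    · rintro ⟨⟨⟨⟨⟨h1, h2⟩, ⟨h3, h4⟩⟩, h5⟩, h6⟩, h7⟩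
      exact ⟨⟨h1, h6⟩, ⟨h3, h7⟩⟩
    · rintro ⟨⟨h1, h6⟩, ⟨h3, h7⟩⟩
      exact ⟨⟨⟨⟨⟨h1, h6.trans huv⟩, ⟨h3, h7.trans huv⟩⟩, (Nat.mul_le_mul h6 h7).trans huu⟩, h6⟩, h7⟩
  -- inclusion and exclusion
  have hsplit : ∑ p ∈ T, f p.1 * g p.2 = ∑ p ∈ T.filter (fun p => p.1 ≤ u), f p.1 * g p.2 +
      ∑ p ∈ T.filter (fun p => p.2 ≤ u), f p.1 * g p.2 -
      ∑ p ∈ (T.filter (fun p => p.1 ≤ u)).filter (fun p => p.2 ≤ u), f p.1 * g p.2 := by
    have h1 := sum_filter_add_sum_filter_not T (fun p => p.1 ≤ u) (fun p => f p.1 * g p.2)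
    have h2 := sum_filter_add_sum_filter_not (T.filter fun p => p.2 ≤ u) (fun p => p.1 ≤ u) (fun p => f p.1 * g p.2)
    have h3 : (T.filter fun p => p.2 ≤ u).filter (fun p => ¬ p.1 ≤ u) = T.filter (fun p => ¬ p.1 ≤ u) := by
      rw [filter_filter]
      refine filter_congr fun p hp => ?_
      rw [hT, mem_filter, mem_product, mem_Ioc, mem_Ioc] at hp
      constructor
      · exact fun h => h.2
      · intro h
        refine ⟨?_, h⟩
        by_contra hcon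
        have h4 : (u + 1) * (u + 1) ≤ p.1 * p.2 := Nat.mul_le_mul (by omega) (by omega)
        have h5 : v < (u + 1) * (u + 1) := Nat.lt_succ_sqrt v
        have h6 := hp.2
        omega
    have h4 : (T.filter fun p => p.2 ≤ u).filter (fun p => p.1 ≤ u) =
        (T.filter fun p => p.1 ≤ u).filter (fun p => p.2 ≤ u) := filter_comm _ _ _
    rw [h3, h4] at h2
    rw [← h1, ← h2]
    ring
  rw [e1, hsplit, hA, hB, hC]
  have b1 : ‖∑ a ∈ Ioc 0 u, ∑ b ∈ Ioc 0 (v / a), f a * g b‖ ≤ u * M := by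
    calc ‖∑ a ∈ Ioc 0 u, ∑ b ∈ Ioc 0 (v / a), f a * g b‖ ≤ ∑ a ∈ Ioc 0 u, ‖∑ b ∈ Ioc 0 (v / a), f a * g b‖ :=
          norm_sum_le _ _
      _ ≤ ∑ a ∈ Ioc 0 u, M := by
          refine sum_le_sum fun a _ => ?_
          rw [← mul_sum, norm_mul]
          calc ‖f a‖ * ‖∑ b ∈ Ioc 0 (v / a), g b‖ ≤ 1 * M := mul_le_mul (hf a) (hG _) (norm_nonneg _) zero_le_one
            _ = M := one_mul M
      _ = u * M := by rw [sum_const, Nat.card_Ioc, nsmul_eq_mul, Nat.sub_zero]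
  have b2 : ‖∑ b ∈ Ioc 0 u, ∑ a ∈ Ioc 0 (v / b), f a * g b‖ ≤ u * M := by
    calc ‖∑ b ∈ Ioc 0 u, ∑ a ∈ Ioc 0 (v / b), f a * g b‖ ≤ ∑ b ∈ Ioc 0 u, ‖∑ a ∈ Ioc 0 (v / b), f a * g b‖ :=
          norm_sum_le _ _
      _ ≤ ∑ b ∈ Ioc 0 u, M := by
          refine sum_le_sum fun b _ => ?_
          rw [← sum_mul, norm_mul]
          calc ‖∑ a ∈ Ioc 0 (v / b), f a‖ * ‖g b‖ ≤ M * 1 := mul_le_mul (hF _) (hg b) (norm_nonneg _) hM
            _ = M := mul_one M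
      _ = u * M := by rw [sum_const, Nat.card_Ioc, nsmul_eq_mul, Nat.sub_zero]
  have b3 : ‖(∑ a ∈ Ioc 0 u, f a) * ∑ b ∈ Ioc 0 u, g b‖ ≤ M ^ 2 := by
    rw [norm_mul, sq]
    exact mul_le_mul (hF u) (hG u) (norm_nonneg _) hM
  refine (norm_sub_le _ _).trans ?_
  refine (add_le_add ((norm_add_le _ _).trans (add_le_add b1 b2)) b3).trans ?_
  have : (u : ℝ) * M ≤ √(v : ℝ) * M := mul_le_mul_of_nonneg_right hur hM
  nlinarith

open scoped Classical in
private theorem SGN_mem (v : ℕ) (z : ℤ × ℤ) (hz : z ∈ FF v) : Fd z := by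
  unfold FF at hz
  exact (mem_filter.mp hz).2.1

theorem SGN (hRPX : RPX_stmt) (hSRF : SRF_stmt) (hSIZ : SIZ_stmt) : SGN_stmt := by
  refine ⟨80, by norm_num, fun q hq2 hq0 v => ?_⟩
  obtain ⟨-, hc1, hc8, hrf⟩ := hRPX q hq2 hq0
  have hqr : (1 : ℝ) ≤ q := by exact_mod_cast hq0
  -- the sign is a character of the norm
  have hsum : ∑ z ∈ FF v, I1 q z * ((N8 z).sign : ℂ) = ∑ z ∈ FF v, I1 q z * SGN_x4 (nn z) := by
    refine sum_congr rfl fun z hz => ?_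
    have hFd : Fd z := SGN_mem v z hz
    obtain ⟨-, -, h3, -, h5⟩ := hSIZ z hFd
    congr 1
    rcases h5 with ⟨h6, h7⟩ | ⟨h6, h7⟩
    · have h8 : (N8 z).sign = 1 := Int.sign_eq_one_of_pos (by rw [h6]; exact_mod_cast h3)
      rw [h8]
      unfold SGN_x4
      rw [if_pos (by omega)]
      norm_num
    · have h8 : (N8 z).sign = -1 := Int.sign_eq_neg_one_of_neg (by rw [h6]; have : (0 : ℤ) < nn z := by exact_mod_cast h3
                                                                   omega)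
      rw [h8]
      unfold SGN_x4
      rw [if_neg (by omega), if_pos (by omega)]
      norm_num
  rw [hsum, ← hSRF.1]
  have hrf2 : ∀ n ∈ Ioc 0 v, rf (fun z => I1 q z * SGN_x4 (nn z)) n =
      ∑ p ∈ n.divisorsAntidiagonal, (SGN_x4 p.1 * e1 q p.1) * (SGN_x4 p.2 * e8 q p.2) := by
    intro n hn
    have h1 : rf (fun z => I1 q z * SGN_x4 (nn z)) n = rf (I1 q) n * SGN_x4 n := by
      unfold rf
      rw [sum_mul]
      refine sum_congr rfl fun z hz => ?_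
      rw [mem_filter] at hz
      show I1 q z * SGN_x4 (nn z) = I1 q z * SGN_x4 n
      rw [hz.2]
    rw [h1, hrf n (mem_Ioc.mp hn).1]
    unfold cv
    rw [sum_mul]
    refine sum_congr rfl fun p hp => ?_
    have h2 : p.1 * p.2 = n := (Nat.mem_divisorsAntidiagonal.mp hp).1
    rw [← h2, SGN_x4_mul]
    ring
  rw [sum_congr rfl hrf2]
  have hf : ∀ n, ‖SGN_x4 n * e1 q n‖ ≤ 1 := fun n => by
    rw [norm_mul]
    exact mul_le_one₀ (SGN_x4_norm n) (norm_nonneg _) (hc1.2.2.2 n)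
  have hg : ∀ n, ‖SGN_x4 n * e8 q n‖ ≤ 1 := fun n => by
    rw [norm_mul]
    exact mul_le_one₀ (SGN_x4_norm n) (norm_nonneg _) (hc8.2.2.2 n)
  have hcop : ∀ n, Nat.Coprime (n + 8 * q) q ↔ Nat.Coprime n q := fun n => by
    rw [Nat.coprime_add_mul_right_left]
  have hF : ∀ y : ℕ, ‖∑ n ∈ Ioc 0 y, SGN_x4 n * e1 q n‖ ≤ ((8 * q : ℕ) : ℝ) := by
    refine SGN_per (8 * q) (by omega) (fun n => SGN_x4 n * e1 q n) (fun n => ?_) (fun n hn => ?_) hf
    · show SGN_x4 (n + 8 * q) * e1 q (n + 8 * q) = SGN_x4 n * e1 q n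
      have h1 : (n + 8 * q) % 4 = n % 4 := by omega
      unfold SGN_x4 e1
      rw [h1]
      simp only [hcop]
    · show SGN_x4 (8 * q - n) * e1 q (8 * q - n) = -(SGN_x4 n * e1 q n)
      have h1 : SGN_x4 (8 * q - n) = -SGN_x4 n := by
        unfold SGN_x4
        rcases (by omega : n % 4 = 0 ∨ n % 4 = 1 ∨ n % 4 = 2 ∨ n % 4 = 3) with h | h | h | h
        · rw [if_neg (by omega), if_neg (by omega), if_neg (by omega), if_neg (by omega), neg_zero]
        · rw [if_neg (by omega), if_pos (by omega), if_pos h]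
        · rw [if_neg (by omega), if_neg (by omega), if_neg (by omega), if_neg (by omega), neg_zero]
        · rw [if_pos (by omega), if_neg (by omega), if_pos h, neg_neg]
      have h2 : e1 q (8 * q - n) = e1 q n := by
        unfold e1
        simp only [SGN_cop_iff (show 8 * q - n + n = 8 * q by omega)]
      rw [h1, h2, neg_mul]
  have hG : ∀ y : ℕ, ‖∑ n ∈ Ioc 0 y, SGN_x4 n * e8 q n‖ ≤ ((8 * q : ℕ) : ℝ) := by
    refine SGN_per (8 * q) (by omega) (fun n => SGN_x4 n * e8 q n) (fun n => ?_) (fun n hn => ?_) hg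
    · show SGN_x4 (n + 8 * q) * e8 q (n + 8 * q) = SGN_x4 n * e8 q n
      have h1 : (n + 8 * q) % 4 = n % 4 := by omega
      have h2 : (n + 8 * q) % 8 = n % 8 := by omega
      unfold SGN_x4 e8 c8 ch8
      rw [h1, h2]
      simp only [hcop]
    · show SGN_x4 (8 * q - n) * e8 q (8 * q - n) = -(SGN_x4 n * e8 q n)
      have h1 : SGN_x4 (8 * q - n) = -SGN_x4 n := by
        unfold SGN_x4
        rcases (by omega : n % 4 = 0 ∨ n % 4 = 1 ∨ n % 4 = 2 ∨ n % 4 = 3) with h | h | h | h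
        · rw [if_neg (by omega), if_neg (by omega), if_neg (by omega), if_neg (by omega), neg_zero]
        · rw [if_neg (by omega), if_pos (by omega), if_pos h]
        · rw [if_neg (by omega), if_neg (by omega), if_neg (by omega), if_neg (by omega), neg_zero]
        · rw [if_pos (by omega), if_neg (by omega), if_pos h, neg_neg]
      have h3 : ch8 (8 * q - n) = ch8 n := by
        unfold ch8
        rcases (by omega : (n % 8 = 0 ∨ n % 8 = 2 ∨ n % 8 = 4 ∨ n % 8 = 6) ∨ (n % 8 = 1 ∨ n % 8 = 7) ∨ (n % 8 = 3 ∨ n % 8 = 5)) with h | h | h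
        · rw [if_neg (by omega), if_neg (by omega), if_neg (by omega), if_neg (by omega)]
        · rw [if_pos (by omega), if_pos h]
        · rw [if_neg (by omega), if_pos (by omega), if_neg (by omega), if_pos h]
      have h2 : e8 q (8 * q - n) = e8 q n := by
        unfold e8 c8
        rw [h3]
        simp only [SGN_cop_iff (show 8 * q - n + n = 8 * q by omega)]
      rw [h1, h2, neg_mul]
  rcases Nat.eq_zero_or_pos v with hv | hv
  · rw [hv, Ioc_self, sum_empty, norm_zero]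
    positivity
  · have h1 := SGN_hyp ((8 * q : ℕ) : ℝ) (Nat.cast_nonneg _) _ _ hf hg hF hG v
    refine h1.trans ?_
    have hv1 : (1 : ℝ) ≤ √(v : ℝ) := by
      rw [Real.one_le_sqrt]
      exact_mod_cast hv
    push_cast
    have hq3 : (q : ℝ) ^ 2 ≤ (q : ℝ) ^ 3 := pow_le_pow_right₀ hqr (by norm_num)
    have hq1 : (q : ℝ) ≤ (q : ℝ) ^ 3 := le_self_pow₀ hqr (by norm_num)
    have h2 : (q : ℝ) * √(v : ℝ) ≤ (q : ℝ) ^ 3 * √(v : ℝ) := mul_le_mul_of_nonneg_right hq1 (by positivity)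
    have h3 : (q : ℝ) ^ 2 * 1 ≤ (q : ℝ) ^ 3 * √(v : ℝ) := mul_le_mul hq3 hv1 (by norm_num) (by positivity)
    nlinarith

end Pool.Agent.YB
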